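import Pool.Agent.H9.UQL.Defs

/-! Module BL2: minimax and greedy removal. -/

set_option autoImplicit false

namespace Pool.Agent.H9.UQL

open Finset

noncomputable section

open Classical

/-- greedy removal. -/
theorem greedy {X : Type} [MetricSpace X] (S ε : ℝ) (w : X → X → ℝ) (m : X → ℝ)
    (hw : ∀ x y, 0 ≤ w x y) (hsymm : ∀ x y, w x y = w y x) (Y' : Finset X) :
    (∃ Y : Finset X, Y ⊆ Y' ∧ Y.Nonempty ∧
      ∀ E : Finset X, E ⊆ Y → E.Nonempty → (∀ x ∈ E, ∀ y ∈ E, dist x y ≤ S) →
        ε * ∑ x ∈ E, m x < ∑ x ∈ E, ∑ y ∈ Y \ E, w x y) ∨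
    (∃ π : X → X, (∀ x ∈ Y', π x ∈ Y' ∧ dist (π x) x ≤ S) ∧
      ∑ x ∈ Y', ∑ y ∈ Y', (if π x = π y then 0 else w x y) ≤ 2 * ε * ∑ x ∈ Y', m x) := by
  induction Y' using Finset.strongInduction with
  | H Y' ih =>
    rcases Y'.eq_empty_or_nonempty with rfl | hne
    · right
      exact ⟨id, by simp, by simp⟩
    by_cases hprop : ∀ E : Finset X, E ⊆ Y' → E.Nonempty → (∀ x ∈ E, ∀ y ∈ E, dist x y ≤ S) →
        ε * ∑ x ∈ E, m x < ∑ x ∈ E, ∑ y ∈ Y' \ E, w x y
    · left
      exact ⟨Y', subset_rfl, hne, hprop⟩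
    push Not at hprop
    obtain ⟨E, hE, hEne, hEd, hEw⟩ := hprop
    have hlt : Y' \ E ⊂ Y' := by
      refine ⟨sdiff_subset, fun h => ?_⟩
      obtain ⟨e, he⟩ := hEne
      exact (mem_sdiff.1 (h (hE he))).2 he
    rcases ih (Y' \ E) hlt with ⟨Y, hY, hYne, hYp⟩ | ⟨π', hπ', hcut⟩
    · left
      exact ⟨Y, hY.trans sdiff_subset, hYne, hYp⟩
    right
    obtain ⟨e0, he0⟩ := hEne
    refine ⟨fun x => if x ∈ E then e0 else π' x, ?_, ?_⟩
    · intro x hx
      by_cases hxE : x ∈ E
      · simp only [hxE, if_true]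
        exact ⟨hE he0, hEd _ he0 _ hxE⟩
      · simp only [hxE, if_false]
        obtain ⟨h1, h2⟩ := hπ' x (mem_sdiff.2 ⟨hx, hxE⟩)
        exact ⟨(mem_sdiff.1 h1).1, h2⟩
    · have hsplit : ∀ F : X → ℝ, ∑ x ∈ Y', F x = ∑ x ∈ Y' \ E, F x + ∑ x ∈ E, F x := fun F =>
        (Finset.sum_sdiff hE).symm
      rw [hsplit m]
      have h1 : ∑ x ∈ Y', ∑ y ∈ Y',
          (if (if x ∈ E then e0 else π' x) = (if y ∈ E then e0 else π' y) then 0 else w x y) ≤
          ∑ x ∈ Y' \ E, ∑ y ∈ Y' \ E, (if π' x = π' y then 0 else w x y) +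
            ∑ x ∈ Y' \ E, ∑ y ∈ E, w x y + ∑ x ∈ E, ∑ y ∈ Y' \ E, w x y := by
        rw [hsplit (fun x => ∑ y ∈ Y',
          (if (if x ∈ E then e0 else π' x) = (if y ∈ E then e0 else π' y) then 0 else w x y))]
        refine add_le_add ?_ ?_
        · rw [← Finset.sum_add_distrib]
          refine Finset.sum_le_sum fun x hx => ?_
          have hxE : x ∉ E := (mem_sdiff.1 hx).2
          rw [hsplit]
          refine add_le_add (le_of_eq ?_) ?_
          · refine Finset.sum_congr rfl fun y hy => ?_
            have hyE : y ∉ E := (mem_sdiff.1 hy).2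
            simp only [hxE, hyE, if_false]
          · refine Finset.sum_le_sum fun y _ => ?_
            split_ifs
            all_goals first | exact hw _ _ | exact le_refl _
        · refine Finset.sum_le_sum fun x hx => ?_
          rw [hsplit]
          have h2 : ∑ y ∈ E,
              (if (if x ∈ E then e0 else π' x) = (if y ∈ E then e0 else π' y) then 0 else w x y) = 0 := by
            refine Finset.sum_eq_zero fun y hy => ?_
            simp only [hx, hy, if_true]
          rw [h2, add_zero]
          refine Finset.sum_le_sum fun y _ => ?_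
          split_ifs
          all_goals first | exact hw _ _ | exact le_refl _
      have h3 : ∑ x ∈ Y' \ E, ∑ y ∈ E, w x y = ∑ x ∈ E, ∑ y ∈ Y' \ E, w x y := by
        rw [Finset.sum_comm]
        exact Finset.sum_congr rfl fun x _ => Finset.sum_congr rfl fun y _ => hsymm _ _
      rw [h3] at h1
      linarith

/-- the minimax step: either a convex combination with small cut probabilities, or weights. -/
theorem minimax {P E : Type} [Fintype P] [Nonempty P] [Fintype E] (c : P → E → ℝ) (θ : ℝ) :
    (∃ l : P → ℝ, (∀ p, 0 ≤ l p) ∧ ∑ p, l p = 1 ∧ ∀ e, ∑ p, l p * c p e ≤ θ) ∨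
    (∃ w : E → ℝ, (∀ e, 0 ≤ w e) ∧ ∀ p, θ * ∑ e, w e < ∑ e, w e * c p e) := by
  classical
  let L : (P → ℝ) →ₗ[ℝ] (E → ℝ) :=
    { toFun := fun l e => ∑ p, l p * c p e
      map_add' := fun l l' => by
        funext e
        simp [add_mul, Finset.sum_add_distrib]
      map_smul' := fun a l => by
        funext e
        simp [Finset.mul_sum, mul_assoc] }
  have hL : Continuous L := LinearMap.continuous_of_finiteDimensional L
  set K : Set (E → ℝ) := L '' (stdSimplex ℝ P) with hK
  set C : Set (E → ℝ) := {v | ∀ e, v e ≤ θ} with hC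
  by_cases hdis : Disjoint K C
  · right
    have hKconv : Convex ℝ K := (convex_stdSimplex ℝ P).linear_image L
    have hKcomp : IsCompact K := (isCompact_stdSimplex ℝ P).image hL
    have hCconv : Convex ℝ C := by
      intro v hv v' hv' a b ha hb hab e
      have h1 := hv e
      have h2 := hv' e
      simp only [Pi.add_apply, Pi.smul_apply, smul_eq_mul]
      calc a * v e + b * v' e ≤ a * θ + b * θ :=
            add_le_add (mul_le_mul_of_nonneg_left h1 ha) (mul_le_mul_of_nonneg_left h2 hb)
        _ = θ := by rw [← add_mul, hab, one_mul]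
    have hCclosed : IsClosed C := by
      have : C = ⋂ e, {v : E → ℝ | v e ≤ θ} := by
        ext v
        simp [hC]
      rw [this]
      exact isClosed_iInter fun e => isClosed_le (continuous_apply e) continuous_const
    obtain ⟨f, u, v, hf1, huv, hf2⟩ :=
      geometric_hahn_banach_compact_closed hKconv hKcomp hCconv hCclosed hdis
    have hf : ∀ x : E → ℝ, f x = ∑ e, x e * f (Pi.single e 1) := by
      intro x
      have h1 : x = ∑ e, x e • (Pi.single e 1 : E → ℝ) := by
        funext e'
        simp [Finset.sum_apply, Pi.single_apply]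
      conv_lhs => rw [h1]
      rw [map_sum]
      simp
    refine ⟨fun e => -f (Pi.single e 1), ?_, ?_⟩
    · intro e
      by_contra hneg
      push Not at hneg
      have hpos : 0 < f (Pi.single e 1) := by linarith
      -- choose s large
      set b0 : E → ℝ := fun _ => θ
      obtain ⟨s, hs0, hs⟩ : ∃ s : ℝ, 0 ≤ s ∧ f b0 - v < s * f (Pi.single e 1) := by
        refine ⟨|f b0 - v| / f (Pi.single e 1) + 1, by positivity, ?_⟩
        rw [add_mul, div_mul_cancel₀ _ hpos.ne', one_mul]
        have := le_abs_self (f b0 - v)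
        linarith
      have hmem : b0 - s • (Pi.single e 1 : E → ℝ) ∈ C := by
        intro e'
        simp only [Pi.sub_apply, Pi.smul_apply, smul_eq_mul, b0]
        have : 0 ≤ s * (Pi.single e (1 : ℝ) : E → ℝ) e' := by
          refine mul_nonneg hs0 ?_
          by_cases h : e' = e
          · subst h; simp
          · simp [h]
        linarith
      have := hf2 _ hmem
      rw [map_sub, map_smul, smul_eq_mul] at this
      linarith
    · intro p
      have hp : L (Pi.single p 1) ∈ K := ⟨Pi.single p 1, single_mem_stdSimplex ℝ p, rfl⟩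
      have hLp : L (Pi.single p 1) = c p := by
        funext e
        show ∑ p', (Pi.single p (1 : ℝ) : P → ℝ) p' * c p' e = c p e
        simp [Pi.single_apply]
      rw [hLp] at hp
      have h1 := hf1 _ hp
      have h2 := hf2 (fun _ => θ) (fun _ => le_refl _)
      rw [hf] at h1 h2
      have h3 : ∑ e, c p e * f (Pi.single e 1) < ∑ e : E, θ * f (Pi.single e 1) := by linarith
      rw [Finset.mul_sum]
      have h4 : ∑ e : E, θ * -f (Pi.single e 1) = -∑ e : E, θ * f (Pi.single e 1) := by
        rw [← Finset.sum_neg_distrib]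
        exact Finset.sum_congr rfl fun _ _ => by ring
      have h5 : ∑ e : E, -f (Pi.single e 1) * c p e = -∑ e : E, c p e * f (Pi.single e 1) := by
        rw [← Finset.sum_neg_distrib]
        exact Finset.sum_congr rfl fun _ _ => by ring
      rw [h4, h5]
      linarith
  · left
    rw [Set.not_disjoint_iff] at hdis
    obtain ⟨v, ⟨l, hl, rfl⟩, hv⟩ := hdis
    exact ⟨l, hl.1, hl.2, hv⟩

/-- the sum of absolute values of a finitely supported function over a set containing the support. -/
theorem sum_abs_le {X : Type} {P : Type} [Fintype P] (Z : Finset X) (l : P → ℝ) (hl : ∀ p, 0 ≤ l p)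
    (a b : P → X) (ha : ∀ p, a p ∈ Z) (hb : ∀ p, b p ∈ Z) :
    ((∑ p, l p • Finsupp.single (a p) (1 : ℝ)) - ∑ p, l p • Finsupp.single (b p) (1 : ℝ)).sum
      (fun _ t => |t|) ≤ ∑ p, l p * (if a p = b p then 0 else 2) := by
  have happ : ∀ (c : P → X) (z : X), (∑ p, l p • Finsupp.single (c p) (1 : ℝ)) z =
      ∑ p, l p * (if c p = z then 1 else 0) := by
    intro c z
    rw [Finsupp.finsetSum_apply]
    refine Finset.sum_congr rfl fun p _ => ?_
    rw [Finsupp.smul_apply, Finsupp.single_apply, smul_eq_mul]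
  have hsupp : ((∑ p, l p • Finsupp.single (a p) (1 : ℝ)) -
      ∑ p, l p • Finsupp.single (b p) (1 : ℝ)).support ⊆ Z := by
    intro z hz
    by_contra hzZ
    rw [Finsupp.mem_support_iff, Finsupp.sub_apply, happ, happ] at hz
    apply hz
    have h1 : ∀ c : P → X, (∀ p, c p ∈ Z) → ∑ p, l p * (if c p = z then (1 : ℝ) else 0) = 0 := by
      intro c hc
      refine Finset.sum_eq_zero fun p _ => ?_
      rw [if_neg (fun h : c p = z => hzZ (h ▸ hc p)), mul_zero]
    rw [h1 a ha, h1 b hb, sub_zero]
  rw [Finsupp.sum_of_support_subset _ hsupp _ (fun _ _ => abs_zero)]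
  calc ∑ z ∈ Z, |((∑ p, l p • Finsupp.single (a p) (1 : ℝ)) -
        ∑ p, l p • Finsupp.single (b p) (1 : ℝ)) z|
      ≤ ∑ z ∈ Z, ∑ p, l p * |(if a p = z then (1 : ℝ) else 0) - (if b p = z then (1 : ℝ) else 0)| := by
        refine Finset.sum_le_sum fun z _ => ?_
        rw [Finsupp.sub_apply, happ, happ, ← Finset.sum_sub_distrib]
        refine (Finset.abs_sum_le_sum_abs _ _).trans (le_of_eq ?_)
        refine Finset.sum_congr rfl fun p _ => ?_
        rw [← mul_sub, abs_mul, abs_of_nonneg (hl p)]
    _ = ∑ p, l p * ∑ z ∈ Z, |(if a p = z then (1 : ℝ) else 0) - (if b p = z then (1 : ℝ) else 0)| := by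
        rw [Finset.sum_comm]
        simp only [Finset.mul_sum]
    _ ≤ ∑ p, l p * (if a p = b p then 0 else 2) := by
        refine Finset.sum_le_sum fun p _ => mul_le_mul_of_nonneg_left ?_ (hl p)
        by_cases hab : a p = b p
        · simp [hab]
        · rw [if_neg hab]
          calc ∑ z ∈ Z, |(if a p = z then (1 : ℝ) else 0) - (if b p = z then (1 : ℝ) else 0)|
              ≤ ∑ z ∈ Z, ((if a p = z then (1 : ℝ) else 0) + (if b p = z then (1 : ℝ) else 0)) := by
                refine Finset.sum_le_sum fun z _ => ?_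
                split_ifs <;> norm_num
            _ = 2 := by
                rw [Finset.sum_add_distrib, Finset.sum_ite_eq, Finset.sum_ite_eq, if_pos (ha p),
                  if_pos (hb p)]
                norm_num

theorem bl2 : BL2Stmt := by
  intro X _ R0 S θ hS hθ Z hP1
  let P := {π : Z → Z // ∀ x, dist (π x : X) (x : X) ≤ S}
  have hPne : Nonempty P := ⟨⟨id, fun x => by simpa using hS⟩⟩
  let c : P → Z × Z → ℝ := fun p e => if dist (e.1 : X) (e.2 : X) ≤ R0 ∧ p.1 e.1 ≠ p.1 e.2 then 1 else 0
  rcases minimax c (θ / 2) with ⟨l, hl0, hl1, hl⟩ | ⟨w0, hw0, hw⟩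
  · -- probability vectors
    exfalso
    apply hP1
    refine ⟨fun x => if hx : x ∈ Z then ∑ p : P, l p • Finsupp.single (p.1 ⟨x, hx⟩ : X) (1 : ℝ) else 0,
      ?_, ?_, ?_, ?_⟩
    · intro x z
      by_cases hx : x ∈ Z
      · simp only [hx, dif_pos]
        rw [Finsupp.finsetSum_apply]
        refine Finset.sum_nonneg fun p _ => ?_
        rw [Finsupp.smul_apply, smul_eq_mul, Finsupp.single_apply]
        refine mul_nonneg (hl0 p) ?_
        split_ifs <;> norm_num
      · simp [hx]
    · intro x hx z hz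
      simp only [hx, dif_pos] at hz
      rw [Finsupp.finsetSum_apply] at hz
      obtain ⟨p, -, hp⟩ := Finset.exists_ne_zero_of_sum_ne_zero hz
      rw [Finsupp.smul_apply, smul_eq_mul, Finsupp.single_apply] at hp
      have h1 : (p.1 ⟨x, hx⟩ : X) = z := by
        by_contra h
        rw [if_neg h, mul_zero] at hp
        exact hp rfl
      rw [← h1]
      exact p.2 ⟨x, hx⟩
    · intro x hx
      simp only [hx, dif_pos]
      rw [← Finsupp.sum_finsetSum_index (fun _ => rfl) (fun _ _ _ => rfl)]
      refine Eq.trans ?_ hl1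
      refine Finset.sum_congr rfl fun p _ => ?_
      rw [Finsupp.smul_single, smul_eq_mul, mul_one, Finsupp.sum_single_index rfl]
    · intro x hx y hy hxy
      simp only [hx, hy, dif_pos]
      refine (sum_abs_le Z l hl0 _ _ (fun p => (p.1 ⟨x, hx⟩).2) (fun p => (p.1 ⟨y, hy⟩).2)).trans ?_
      have h1 := hl (⟨x, hx⟩, ⟨y, hy⟩)
      have h2 : ∑ p : P, l p * (if (p.1 ⟨x, hx⟩ : X) = (p.1 ⟨y, hy⟩ : X) then (0 : ℝ) else 2) =
          2 * ∑ p : P, l p * c p (⟨x, hx⟩, ⟨y, hy⟩) := by
        rw [Finset.mul_sum]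
        refine Finset.sum_congr rfl fun p _ => ?_
        simp only [c]
        by_cases h : p.1 ⟨x, hx⟩ = p.1 ⟨y, hy⟩
        · rw [if_pos (by rw [h]), if_neg (by simp [h])]
          ring
        · rw [if_neg (fun h' => h (Subtype.ext h')), if_pos ⟨hxy, h⟩]
          ring
      rw [h2]
      linarith
  · -- weights
    set w : X → X → ℝ := fun x y => if h : x ∈ Z ∧ y ∈ Z ∧ dist x y ≤ R0 then
      w0 (⟨x, h.1⟩, ⟨y, h.2.1⟩) + w0 (⟨y, h.2.1⟩, ⟨x, h.1⟩) else 0 with hwdef
    have hwnn : ∀ x y, 0 ≤ w x y := by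
      intro x y
      simp only [hwdef]
      split_ifs
      · exact add_nonneg (hw0 _) (hw0 _)
      · exact le_refl _
    have hws : ∀ x y, w x y = w y x := by
      intro x y
      simp only [hwdef]
      by_cases h : x ∈ Z ∧ y ∈ Z ∧ dist x y ≤ R0
      · rw [dif_pos h, dif_pos ⟨h.2.1, h.1, by rw [dist_comm]; exact h.2.2⟩, add_comm]
      · rw [dif_neg h, dif_neg (fun h' => h ⟨h'.2.1, h'.1, by rw [dist_comm]; exact h'.2.2⟩)]
    have hwR : ∀ x y, w x y ≠ 0 → dist x y ≤ R0 := by
      intro x y h
      by_contra h'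
      apply h
      simp only [hwdef]
      rw [dif_neg (fun h'' => h' h''.2.2)]
    set m : X → ℝ := fun x => ∑ y ∈ Z, w x y with hm
    rcases greedy S (θ / 4) w m hwnn hws Z with ⟨Y, hYZ, hYne, hY⟩ | ⟨π, hπ, hcut⟩
    · refine ⟨Y, hYZ, hYne, w, m, hwnn, hws, hwR, fun x _ => ?_, hY⟩
      exact Finset.sum_le_sum_of_subset_of_nonneg hYZ fun _ _ _ => hwnn _ _
    · exfalso
      let p : P := ⟨fun x => ⟨π x, (hπ x x.2).1⟩, fun x => (hπ x x.2).2⟩
      have h1 := hw p
      -- convert sums
      have hconv : ∀ F : X → X → ℝ, ∑ x ∈ Z, ∑ y ∈ Z, F x y = ∑ e : Z × Z, F e.1 e.2 := by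
        intro F
        rw [Fintype.sum_prod_type, ← Finset.sum_coe_sort Z (fun x => ∑ y ∈ Z, F x y)]
        refine Finset.sum_congr rfl fun x _ => ?_
        rw [← Finset.sum_coe_sort Z (fun y => F x y)]
      have hswap : ∀ F : Z × Z → ℝ, ∑ e : Z × Z, F (e.2, e.1) = ∑ e : Z × Z, F e := fun F =>
        Fintype.sum_equiv (Equiv.prodComm Z Z) _ _ fun e => rfl
      have h2 : ∑ x ∈ Z, ∑ y ∈ Z, (if π x = π y then 0 else w x y) =
          2 * ∑ e : Z × Z, w0 e * c p e := by
        rw [hconv, two_mul]
        nth_rewrite 2 [← hswap]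
        rw [← Finset.sum_add_distrib]
        refine Finset.sum_congr rfl fun e _ => ?_
        by_cases h : π e.1 = π e.2
        · have hc1 : c p e = 0 := by
            simp only [c, p]
            rw [if_neg]
            rintro ⟨-, h'⟩
            exact h' (Subtype.ext h)
          have hc2 : c p (e.2, e.1) = 0 := by
            simp only [c, p]
            rw [if_neg]
            rintro ⟨-, h'⟩
            exact h' (Subtype.ext h.symm)
          rw [if_pos h, hc1, hc2]
          ring
        · rw [if_neg h]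
          by_cases hd : dist (e.1 : X) (e.2 : X) ≤ R0
          · have hc1 : c p e = 1 := by
              simp only [c, p]
              rw [if_pos]
              exact ⟨hd, fun h' => h (congrArg Subtype.val h')⟩
            have hc2 : c p (e.2, e.1) = 1 := by
              simp only [c, p]
              rw [if_pos]
              exact ⟨by rw [dist_comm]; exact hd, fun h' => h (congrArg Subtype.val h').symm⟩
            have hwe : w e.1 e.2 = w0 e + w0 (e.2, e.1) := by
              simp only [hwdef]
              rw [dif_pos ⟨e.1.2, e.2.2, hd⟩]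
            rw [hc1, hc2, hwe]
            ring
          · have hc1 : c p e = 0 := by
              simp only [c, p]
              rw [if_neg]
              rintro ⟨h', -⟩
              exact hd h'
            have hc2 : c p (e.2, e.1) = 0 := by
              simp only [c, p]
              rw [if_neg]
              rintro ⟨h', -⟩
              rw [dist_comm] at h'
              exact hd h'
            have hwe : w e.1 e.2 = 0 := by
              simp only [hwdef]
              rw [dif_neg (fun h' => hd h'.2.2)]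
            rw [hc1, hc2, hwe]
            ring
      have h3 : ∑ x ∈ Z, m x ≤ 2 * ∑ e : Z × Z, w0 e := by
        simp only [hm]
        rw [hconv, two_mul]
        nth_rewrite 2 [← hswap]
        rw [← Finset.sum_add_distrib]
        refine Finset.sum_le_sum fun e _ => ?_
        simp only [hwdef]
        split_ifs
        · exact (add_comm _ _).le
        · exact add_nonneg (hw0 _) (hw0 _)
      rw [h2] at hcut
      have h4 : 2 * (θ / 4) * ∑ x ∈ Z, m x ≤ 2 * (θ / 4) * (2 * ∑ e : Z × Z, w0 e) :=
        mul_le_mul_of_nonneg_left h3 (by linarith)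
      linarith

end

end Pool.Agent.H9.UQL
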