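import Pool.Agent.H9.UQL.Defs

/-! Module NORM. -/

set_option autoImplicit false

namespace Pool.Agent.H9.UQL

open Finset

noncomputable section

open Classical

variable {X : Type}

/-- the basis vector at `x`. -/
abbrev bv (x : X) : l2 X := lp.single 2 x (1 : ℂ)

theorem inner_bv (y : X) (f : l2 X) : inner ℂ (bv y) f = f y := by
  rw [lp.inner_single_left]
  simp

theorem inner_bv_right (y : X) (f : l2 X) : inner ℂ f (bv y) = (starRingEnd ℂ) (f y) := by
  rw [← inner_conj_symm, inner_bv]

theorem single_eq_smul (x : X) (c : ℂ) : (lp.single 2 x c : l2 X) = c • bv x := by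
  rw [← lp.single_smul]
  simp

theorem hasSum_coord (T : l2 X →L[ℂ] l2 X) (f : l2 X) (y : X) :
    HasSum (fun x => f x * (T (bv x)) y) ((T f) y) := by
  have h1 : HasSum (fun x => (lp.single 2 x (f x) : l2 X)) f :=
    lp.hasSum_single (by norm_num) f
  have h2 := (h1.mapL T).mapL (innerSL ℂ (bv y))
  simp only [innerSL_apply_apply] at h2
  rw [inner_bv] at h2
  have h3 : (fun x => f x * (T (bv x)) y) =
      fun x => inner ℂ (bv y) (T (lp.single 2 x (f x) : l2 X)) := by
    funext x
    rw [inner_bv, single_eq_smul, map_smul]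
    rfl
  rw [h3]
  exact h2

theorem star_coord (T : l2 X →L[ℂ] l2 X) (x y : X) :
    ((star T) (bv y)) x = (starRingEnd ℂ) ((T (bv x)) y) := by
  rw [← inner_bv x, ContinuousLinearMap.star_eq_adjoint, ContinuousLinearMap.adjoint_inner_right,
    inner_bv_right]

theorem bv_apply (x y : X) : (bv x : l2 X) y = if y = x then 1 else 0 := by
  rw [lp.single_apply, Pi.single_apply]

/-- finite sums of squares of coordinates. -/
theorem sum_sq_le (f : l2 X) (s : Finset X) : ∑ x ∈ s, ‖f x‖ ^ 2 ≤ ‖f‖ ^ 2 := by
  have h := lp.sum_rpow_le_norm_rpow (p := 2) (by norm_num) f s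
  simpa using h

theorem norm_le_of_sum {f : l2 X} {C : ℝ} (hC : 0 ≤ C)
    (h : ∀ s : Finset X, ∑ x ∈ s, ‖f x‖ ^ 2 ≤ C ^ 2) : ‖f‖ ≤ C := by
  refine lp.norm_le_of_forall_sum_le (p := 2) (by norm_num) hC fun s => ?_
  simpa using h s

theorem memlp_of_sum {f : X → ℂ} {C : ℝ} (h : ∀ s : Finset X, ∑ x ∈ s, ‖f x‖ ^ 2 ≤ C) :
    Memℓp f 2 := by
  refine memℓp_gen' (C := C) fun s => ?_
  simpa using h s

/-- the coordinate projection. -/
def projA (A : Set X) : l2 X →L[ℂ] l2 X :=
  LinearMap.mkContinuous
    { toFun := fun f => ⟨fun x => if x ∈ A then f x else 0, by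
        refine memlp_of_sum (C := ‖f‖ ^ 2) fun s => ?_
        refine le_trans (Finset.sum_le_sum fun x _ => ?_) (sum_sq_le f s)
        split_ifs
        · exact le_refl _
        · simp⟩
      map_add' := fun f g => by
        ext x
        change (if x ∈ A then (f + g) x else 0) = (if x ∈ A then f x else 0) + (if x ∈ A then g x else 0)
        split_ifs <;> simp
      map_smul' := fun c f => by
        ext x
        change (if x ∈ A then (c • f) x else 0) = c * (if x ∈ A then f x else 0)
        split_ifs <;> simp }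
    1 (fun f => by
      rw [one_mul]
      refine norm_le_of_sum (norm_nonneg f) fun s => ?_
      refine le_trans (Finset.sum_le_sum fun x _ => ?_) (sum_sq_le f s)
      change ‖(if x ∈ A then f x else 0)‖ ^ 2 ≤ ‖f x‖ ^ 2
      split_ifs
      · exact le_refl _
      · simp)

theorem projA_apply (A : Set X) (f : l2 X) (x : X) : (projA A f) x = if x ∈ A then f x else 0 := rfl

/-- the finite propagation operators form a star subalgebra. -/
def FPalg (X : Type) [MetricSpace X] : StarSubalgebra ℂ (l2 X →L[ℂ] l2 X) where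
  carrier := {T | ∃ R : ℝ, ∀ x y : X, R < dist x y → (T (bv y)) x = 0}
  mul_mem' := by
    rintro S T ⟨R, hR⟩ ⟨R', hR'⟩
    refine ⟨R + R', fun x y hxy => ?_⟩
    have h1 : ((S * T) (bv y)) x = (S (T (bv y))) x := rfl
    rw [h1]
    refine (hasSum_coord S (T (bv y)) x).unique ?_
    have h2 : (fun z => (T (bv y)) z * (S (bv z)) x) = fun _ => 0 := by
      funext z
      by_cases h : R < dist x z
      · rw [hR x z h, mul_zero]
      · have h3 : R' < dist z y := by
          have := dist_triangle x z y
          linarith [not_lt.1 h]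
        rw [hR' z y h3, zero_mul]
    rw [h2]
    exact hasSum_zero
  add_mem' := by
    rintro S T ⟨R, hR⟩ ⟨R', hR'⟩
    refine ⟨max R R', fun x y hxy => ?_⟩
    have h1 : ((S + T) (bv y)) x = (S (bv y)) x + (T (bv y)) x := rfl
    rw [h1, hR x y (lt_of_le_of_lt (le_max_left _ _) hxy),
      hR' x y (lt_of_le_of_lt (le_max_right _ _) hxy), add_zero]
  algebraMap_mem' := by
    intro c
    refine ⟨0, fun x y hxy => ?_⟩
    have h1 : ((algebraMap ℂ (l2 X →L[ℂ] l2 X) c) (bv y)) x = c * (bv y : l2 X) x := rfl
    rw [h1, bv_apply, if_neg (fun h => by rw [h, dist_self] at hxy; exact lt_irrefl _ hxy), mul_zero]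
  star_mem' := by
    rintro T ⟨R, hR⟩
    refine ⟨R, fun x y hxy => ?_⟩
    rw [star_coord, hR y x (by rwa [dist_comm]), map_zero]

theorem mem_FPalg [MetricSpace X] {T : l2 X →L[ℂ] l2 X} :
    T ∈ FPalg X ↔ ∃ R : ℝ, ∀ x y : X, R < dist x y → (T (bv y)) x = 0 := Iff.rfl

/-- the rank one projection onto a basis vector. -/
def rk1 (z : X) : l2 X →L[ℂ] l2 X := projA {z}

theorem rk1_apply (z : X) (f : l2 X) : rk1 z f = f z • bv z := by
  ext x
  rw [rk1, projA_apply]
  change (if x ∈ ({z} : Set X) then f x else 0) = f z * (bv z : l2 X) x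
  rw [bv_apply]
  by_cases h : x = z
  · subst h; simp
  · simp [h]

theorem normSet_subset [MetricSpace X] {n : l2 X →L[ℂ] l2 X} (hn : n ∈ normSet X) :
    n ∈ closure (FPalg X : Set (l2 X →L[ℂ] l2 X)) := by
  obtain ⟨hq, hd⟩ := hn
  have hdiag : ∀ z : X, ∀ x y : X, x ≠ y → ((rk1 z) (bv x)) y = 0 := by
    intro z x y hxy
    rw [rk1_apply]
    change (bv x : l2 X) z * (bv z : l2 X) y = 0
    rw [bv_apply, bv_apply]
    by_cases h1 : z = x
    · subst h1
      rw [if_neg (Ne.symm hxy), mul_zero]
    · rw [if_neg h1, zero_mul]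
  -- each column has at most one nonzero entry
  have hcol : ∀ z x y : X, x ≠ y → (n (bv z)) x = 0 ∨ (n (bv z)) y = 0 := by
    intro z x y hxy
    have h1 := (hd (rk1 z) (hdiag z)).1 x y hxy
    have h2 : ((n * rk1 z * star n) (bv x)) y = (n (rk1 z ((star n) (bv x)))) y := rfl
    rw [h2, rk1_apply, map_smul] at h1
    have h3 : ((star n) (bv x)) z * (n (bv z)) y = 0 := h1
    rw [star_coord] at h3
    rcases mul_eq_zero.1 h3 with h | h
    · left
      simpa using h
    · right
      exact h
  -- each row has at most one nonzero entry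
  have hrow : ∀ z x y : X, x ≠ y → (n (bv x)) z = 0 ∨ (n (bv y)) z = 0 := by
    intro z x y hxy
    have h1 := (hd (rk1 z) (hdiag z)).2 x y hxy
    have h2 : ((star n * rk1 z * n) (bv x)) y = ((star n) (rk1 z (n (bv x)))) y := rfl
    rw [h2, rk1_apply, map_smul] at h1
    have h3 : (n (bv x)) z * ((star n) (bv z)) y = 0 := h1
    rw [star_coord] at h3
    rcases mul_eq_zero.1 h3 with h | h
    · left
      exact h
    · right
      simpa using h
  rw [Metric.mem_closure_iff]
  intro δ hδ
  obtain ⟨R, hR0, hR⟩ := hq (δ / 2) (by linarith)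
  have hentry : ∀ x y : X, R < dist y x → ‖(n (bv x)) y‖ ≤ δ / 2 := by
    intro x y hxy
    have h1 := hR {y} {x} (by
      intro c hc d hdd
      rw [Set.mem_singleton_iff] at hc hdd
      rw [hc, hdd]
      exact hxy) (bv x) (bv y)
      (by
        intro z hz
        rw [bv_apply, if_neg]
        simpa using hz)
      (by
        intro z hz
        rw [bv_apply, if_neg]
        simpa using hz)
    rw [inner_bv] at h1
    have h2 : ‖(bv y : l2 X)‖ = 1 := by
      rw [lp.norm_single (by norm_num)]
      simp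
    have h3 : ‖(bv x : l2 X)‖ = 1 := by
      rw [lp.norm_single (by norm_num)]
      simp
    rw [h2, h3] at h1
    simpa using h1
  set A : Set X := {x | ∀ y, (n (bv x)) y ≠ 0 → dist y x ≤ R} with hA
  have hA' : ∀ x, x ∉ A → ∀ y, ‖(n (bv x)) y‖ ≤ δ / 2 := by
    intro x hx y
    simp only [hA, Set.mem_ofPred_eq, not_forall, not_le] at hx
    obtain ⟨y0, hy0, hd0⟩ := hx
    by_cases hyy : y = y0
    · rw [hyy]
      exact hentry x y0 hd0
    · rcases hcol x y y0 hyy with h | h
      · rw [h, norm_zero]
        linarith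
      · exact absurd h hy0
  refine ⟨n * projA A, ?_, ?_⟩
  · refine ⟨R, fun x y hxy => ?_⟩
    have h1 : ((n * projA A) (bv y)) x = (n (projA A (bv y))) x := rfl
    rw [h1]
    by_cases hy : y ∈ A
    · have h2 : projA A (bv y) = bv y := by
        ext z
        rw [projA_apply, bv_apply]
        by_cases hz : z = y
        · subst hz; simp [hy]
        · simp [hz]
      rw [h2]
      by_contra h
      exact absurd (hy x h) (not_le.2 hxy)
    · have h2 : projA A (bv y) = 0 := by
        ext z
        rw [projA_apply, bv_apply]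
        by_cases hz : z = y
        · subst hz; simp [hy]
        · simp [hz]
      rw [h2, map_zero]
      rfl
  · refine lt_of_le_of_lt ?_ (by linarith : δ / 2 < δ)
    rw [dist_eq_norm]
    refine ContinuousLinearMap.opNorm_le_bound _ (by linarith) fun v => ?_
    set f : l2 X := v - projA A v with hf
    have hfx : ∀ x, f x = if x ∈ A then 0 else v x := by
      intro x
      have : f x = v x - (projA A v) x := rfl
      rw [this, projA_apply]
      split_ifs <;> simp
    have hnf : (n - n * projA A) v = n f := by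
      rw [hf, map_sub]
      rfl
    rw [hnf]
    have hfv : ‖f‖ ≤ ‖v‖ := by
      refine norm_le_of_sum (norm_nonneg _) fun s => ?_
      refine le_trans (Finset.sum_le_sum fun x _ => ?_) (sum_sq_le v s)
      rw [hfx]
      split_ifs
      · simp
      · exact le_refl _
    refine le_trans ?_ (mul_le_mul_of_nonneg_left hfv (by linarith : (0 : ℝ) ≤ δ / 2))
    -- choose the source point of each row
    have hsrc : ∀ y : X, ∃ x0 : X, ∀ x, x ≠ x0 → (n (bv x)) y = 0 := by
      intro y
      by_cases h : ∃ x0, (n (bv x0)) y ≠ 0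
      · obtain ⟨x0, hx0⟩ := h
        refine ⟨x0, fun x hx => ?_⟩
        rcases hrow y x x0 hx with h | h
        · exact h
        · exact absurd h hx0
      · push Not at h
        exact ⟨y, fun x _ => h x⟩
    choose src hsrc using hsrc
    have hval : ∀ y, (n f) y = f (src y) * (n (bv (src y))) y := by
      intro y
      refine (hasSum_coord n f y).unique ?_
      refine hasSum_single (src y) fun x hx => ?_
      rw [hsrc y x hx, mul_zero]
    refine norm_le_of_sum (mul_nonneg (by linarith) (norm_nonneg _)) fun s => ?_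
    -- restrict to the rows with a nonzero value
    have h1 : ∑ y ∈ s, ‖(n f) y‖ ^ 2 = ∑ y ∈ s.filter (fun y => (n f) y ≠ 0), ‖(n f) y‖ ^ 2 := by
      symm
      refine Finset.sum_subset (Finset.filter_subset _ _) fun y hy hy' => ?_
      have : (n f) y = 0 := by
        by_contra h
        exact hy' (Finset.mem_filter.2 ⟨hy, h⟩)
      rw [this]
      simp
    rw [h1]
    have hinj : Set.InjOn src ↑(s.filter (fun y => (n f) y ≠ 0)) := by
      intro y hy y' hy' h
      by_contra hne
      have e1 : (n f) y ≠ 0 := (Finset.mem_filter.1 hy).2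
      have e2 : (n f) y' ≠ 0 := (Finset.mem_filter.1 hy').2
      rw [hval] at e1 e2
      rw [← h] at e2
      rcases hcol (src y) y y' hne with h3 | h3
      · rw [h3, mul_zero] at e1
        exact e1 rfl
      · rw [h3, mul_zero] at e2
        exact e2 rfl
    have h2 : ∀ y ∈ s.filter (fun y => (n f) y ≠ 0), ‖(n f) y‖ ^ 2 ≤ (δ / 2) ^ 2 * ‖f (src y)‖ ^ 2 := by
      intro y _
      rw [hval, norm_mul, mul_pow, mul_comm]
      by_cases hsA : src y ∈ A
      · have : f (src y) = 0 := by rw [hfx, if_pos hsA]
        rw [this]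
        simp
      · refine mul_le_mul_of_nonneg_right ?_ (by positivity)
        exact pow_le_pow_left₀ (norm_nonneg _) (hA' _ hsA y) 2
    refine (Finset.sum_le_sum h2).trans ?_
    rw [← Finset.mul_sum, mul_pow]
    refine mul_le_mul_of_nonneg_left ?_ (by positivity)
    rw [← Finset.sum_image (f := fun x => ‖f x‖ ^ 2) (fun y hy y' hy' h => hinj hy hy' h)]
    exact sum_sq_le f _

theorem norm_stmt : NormStmt := by
  intro X _ T hT δ hδ
  have hle : StarAlgebra.adjoin ℂ (normSet X) ≤ (FPalg X).topologicalClosure := by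
    refine StarAlgebra.adjoin_le ?_
    intro n hn
    rw [StarSubalgebra.topologicalClosure_coe]
    exact normSet_subset hn
  have h1 : T ∈ closure (FPalg X : Set (l2 X →L[ℂ] l2 X)) := by
    have h2 : closure ((StarAlgebra.adjoin ℂ (normSet X)) : Set (l2 X →L[ℂ] l2 X)) ⊆
        closure (FPalg X : Set (l2 X →L[ℂ] l2 X)) := by
      refine closure_minimal ?_ isClosed_closure
      intro n hn
      have := hle hn
      rw [← SetLike.mem_coe, StarSubalgebra.topologicalClosure_coe] at this
      exact this
    exact h2 hT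
  rw [Metric.mem_closure_iff] at h1
  obtain ⟨T'', ⟨R, hR⟩, hT''⟩ := h1 δ hδ
  refine ⟨R, T'', hR, ?_⟩
  rw [← dist_eq_norm]
  exact hT''.le

end

end Pool.Agent.H9.UQL
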