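import Pool.Agent.H9.UQL.Defs

/-! Basic lemmas for project UQL. -/

set_option autoImplicit false

namespace Pool.Agent.H9.UQL

open Finset

section nb

variable {Y : Type} (N : Nb Y)

theorem Nb.mono {i j : ℕ} (h : i ≤ j) {z w : Y} (hn : N.near i z w) : N.near j z w := by
  have := N.trans hn (N.refl (j - i) w)
  rwa [Nat.add_sub_cancel' h] at this

variable [Fintype Y]

theorem Nb.mem_ball {j : ℕ} {z w : Y} : w ∈ N.ball j z ↔ N.near j z w := by
  simp [Nb.ball]

theorem Nb.mem_nball {j : ℕ} {S : Finset Y} {w : Y} : w ∈ N.nball j S ↔ ∃ z ∈ S, N.near j z w := by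
  simp [Nb.nball]

end nb

section act

variable {Y ι : Type} [Fintype Y] [Fintype ι]

theorem act_mul (A B : Matrix Y Y ℝ) (x : Y → EuclideanSpace ℝ ι) :
    act (A * B) x = act A (act B x) := by
  funext z
  simp only [act, Matrix.mul_apply, Finset.sum_smul, Finset.smul_sum, smul_smul]
  exact Finset.sum_comm

theorem act_apply (A : Matrix Y Y ℝ) (x : Y → EuclideanSpace ℝ ι) (z : Y) (i : ι) :
    act A x z i = ∑ w, A z w * x w i := by
  simp [act]

theorem sq_eq (x : Y → EuclideanSpace ℝ ι) : sq x = ∑ i, ∑ z, (x z i) ^ 2 := by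
  rw [Finset.sum_comm]
  simp [sq, EuclideanSpace.norm_sq_eq]

theorem sq_nonneg' (x : Y → EuclideanSpace ℝ ι) : 0 ≤ sq x :=
  Finset.sum_nonneg fun _ _ => by positivity

theorem sq_act_le {A : Matrix Y Y ℝ} (hA : Contr A) (x : Y → EuclideanSpace ℝ ι) :
    sq (act A x) ≤ sq x := by
  rw [sq_eq, sq_eq]
  refine Finset.sum_le_sum fun i _ => ?_
  simp only [act_apply]
  exact hA (fun w => x w i)

theorem Contr.one [DecidableEq Y] : Contr (1 : Matrix Y Y ℝ) := by
  intro x
  simp [Matrix.one_apply]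

theorem Contr.mul {A B : Matrix Y Y ℝ} (hA : Contr A) (hB : Contr B) : Contr (A * B) := by
  intro x
  have h1 : ∀ z, ∑ w, (A * B) z w * x w = ∑ w, A z w * (∑ v, B w v * x v) := by
    intro z
    simp only [Matrix.mul_apply, Finset.sum_mul, Finset.mul_sum]
    rw [Finset.sum_comm]
    simp only [mul_assoc]
  simp only [h1]
  exact (hA _).trans (hB _)

theorem Contr.pow [DecidableEq Y] {A : Matrix Y Y ℝ} (hA : Contr A) (n : ℕ) : Contr (A ^ n) := by
  induction n with
  | zero => simpa using Contr.one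
  | succ n ih => rw [pow_succ]; exact ih.mul hA

theorem near_pow [DecidableEq Y] (N : Nb Y) {T : Matrix Y Y ℝ}
    (hT : ∀ z w, T z w ≠ 0 → N.near 1 z w) (n : ℕ) :
    ∀ z w, (T ^ n) z w ≠ 0 → N.near n z w := by
  induction n with
  | zero =>
    intro z w h
    by_cases hzw : z = w
    · subst hzw; exact N.refl _ _
    · simp [hzw] at h
  | succ n ih =>
    intro z w h
    rw [pow_succ, Matrix.mul_apply] at h
    obtain ⟨v, -, hv⟩ := Finset.exists_ne_zero_of_sum_ne_zero h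
    exact N.trans (ih z v (left_ne_zero_of_mul hv)) (hT v w (right_ne_zero_of_mul hv))

/-- Cauchy–Schwarz for a linear combination of vectors. -/
theorem norm_sum_smul_sq_le {α E : Type} [NormedAddCommGroup E] [InnerProductSpace ℝ E]
    (s : Finset α) (c : α → ℝ) (v : α → E) :
    ‖∑ a ∈ s, c a • v a‖ ^ 2 ≤ (∑ a ∈ s, c a ^ 2) * ∑ a ∈ s, ‖v a‖ ^ 2 := by
  have h1 : ‖∑ a ∈ s, c a • v a‖ ≤ ∑ a ∈ s, |c a| * ‖v a‖ := by
    refine (norm_sum_le _ _).trans (le_of_eq ?_)
    refine Finset.sum_congr rfl fun a _ => ?_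
    rw [norm_smul, Real.norm_eq_abs]
  have h2 := Finset.sum_mul_sq_le_sq_mul_sq s (fun a => |c a|) (fun a => ‖v a‖)
  have h3 : ‖∑ a ∈ s, c a • v a‖ ^ 2 ≤ (∑ a ∈ s, |c a| * ‖v a‖) ^ 2 :=
    pow_le_pow_left₀ (norm_nonneg _) h1 2
  refine h3.trans (h2.trans (le_of_eq ?_))
  simp [sq_abs]

/-- (F): local bound of a field in the range of a local operator. -/
theorem local_bound (N : Nb Y) {A : Matrix Y Y ℝ} {s : ℕ}
    (hA : ∀ z w, A z w ≠ 0 → N.near s z w) {a : ℝ} (ha : ∀ z, ∑ w, A z w ^ 2 ≤ a)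
    (x : Y → EuclideanSpace ℝ ι) (z : Y) :
    ‖act A x z‖ ^ 2 ≤ a * ∑ w ∈ N.ball s z, ‖x w‖ ^ 2 := by
  have h1 : act A x z = ∑ w ∈ N.ball s z, A z w • x w := by
    unfold act
    symm
    refine Finset.sum_subset (Finset.subset_univ _) fun w _ hw => ?_
    have : A z w = 0 := by
      by_contra h
      exact hw ((N.mem_ball).2 (hA z w h))
    simp [this]
  rw [h1]
  refine (norm_sum_smul_sq_le _ _ _).trans ?_
  refine mul_le_mul_of_nonneg_right ?_ (Finset.sum_nonneg fun _ _ => by positivity)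
  refine le_trans ?_ (ha z)
  exact Finset.sum_le_sum_of_subset_of_nonneg (Finset.subset_univ _) fun _ _ _ => by positivity

end act

section hatsec

theorem hat_nonneg (a : ℝ) : 0 ≤ hat a := le_max_left _ _

theorem hat_le_one (a : ℝ) : hat a ≤ 1 := by
  unfold hat
  refine max_le (by norm_num) ?_
  rcases le_total a 1 with h | h
  · exact (min_le_left _ _).trans (by linarith)
  · exact (min_le_right _ _).trans (by linarith)

theorem hat_pos_iff {a : ℝ} : 0 < hat a ↔ 1 / 2 < a ∧ a < 2 := by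
  unfold hat
  rw [lt_max_iff, lt_min_iff]
  constructor
  · rintro (h | ⟨h1, h2⟩)
    · exact absurd h (lt_irrefl _)
    · constructor <;> linarith
  · rintro ⟨h1, h2⟩
    right
    constructor <;> linarith

theorem hat_eq_zero_iff {a : ℝ} : hat a = 0 ↔ a ≤ 1 / 2 ∨ 2 ≤ a := by
  rw [← not_iff_not, not_or, not_le, not_le, ← hat_pos_iff]
  exact ⟨fun h => lt_of_le_of_ne (hat_nonneg _) (Ne.symm h), fun h => h.ne'⟩

theorem hat_lip (a b : ℝ) : |hat a - hat b| ≤ 2 * |a - b| := by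
  unfold hat
  refine (abs_max_sub_max_le_max _ _ _ _).trans (max_le (by simp) ?_)
  refine (abs_min_sub_min_le_max _ _ _ _).trans (max_le ?_ ?_)
  · have : 2 * a - 1 - (2 * b - 1) = 2 * (a - b) := by ring
    rw [this, abs_mul, abs_of_pos (by norm_num : (0 : ℝ) < 2)]
  · have : 2 - a - (2 - b) = -(a - b) := by ring
    rw [this, abs_neg]
    have := abs_nonneg (a - b)
    linarith

end hatsec

section phisec

variable {ι : Type} [Fintype ι]

theorem phi_smul (q : Option ℕ) (e v : EuclideanSpace ℝ ι) (c : ℝ) :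
    phi q e (c • v) = c ^ 2 * phi q e v := by
  cases q with
  | none =>
    simp only [phi, inner_smul_right, norm_smul, mul_pow, Real.norm_eq_abs, sq_abs]
    ring
  | some K =>
    simp only [phi, inner_smul_right, norm_smul, mul_pow, Real.norm_eq_abs, sq_abs]
    rw [mul_max_of_nonneg _ _ (sq_nonneg c), mul_zero]
    congr 1
    ring

theorem phi_zero (q : Option ℕ) (e : EuclideanSpace ℝ ι) : phi q e 0 = 0 := by
  cases q <;> simp [phi]

theorem inner_sq_le {e v : EuclideanSpace ℝ ι} {k : ℝ} (he : ‖e‖ ^ 2 ≤ k) :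
    (inner ℝ e v : ℝ) ^ 2 ≤ k * ‖v‖ ^ 2 := by
  have h := abs_real_inner_le_norm e v
  have h2 : (inner ℝ e v : ℝ) ^ 2 ≤ (‖e‖ * ‖v‖) ^ 2 := by
    rw [← sq_abs]
    exact pow_le_pow_left₀ (abs_nonneg _) h 2
  rw [mul_pow] at h2
  exact h2.trans (mul_le_mul_of_nonneg_right he (by positivity))

theorem abs_phi_le (q : Option ℕ) {e v : EuclideanSpace ℝ ι} {k : ℝ} (hk : 1 ≤ k)
    (he : ‖e‖ ^ 2 ≤ k) : |phi q e v| ≤ k * ‖v‖ ^ 2 := by
  have h := inner_sq_le (v := v) he
  have h0 : 0 ≤ (inner ℝ e v : ℝ) ^ 2 := sq_nonneg _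
  have h1 : 0 ≤ ‖v‖ ^ 2 := sq_nonneg _
  have h2 : ‖v‖ ^ 2 ≤ k * ‖v‖ ^ 2 := le_mul_of_one_le_left h1 hk
  cases q with
  | none =>
    simp only [phi]
    rw [abs_le]
    constructor <;> linarith
  | some K =>
    simp only [phi]
    rw [abs_of_nonneg (le_max_right _ _)]
    refine max_le ?_ (h1.trans h2)
    have : 0 ≤ (K : ℝ) * ‖v‖ ^ 2 := by positivity
    linarith

theorem kap_ge (ω : ℝ) (q : Option ℕ) : ω ≤ kap ω q := by
  cases q with
  | none => exact le_refl _
  | some K => exact le_max_left _ _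

end phisec

end Pool.Agent.H9.UQL
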