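import Mathlib

/-!
# Project UQL (helper9): S05825, Cartan diagonal in the uniform quasi-local algebra implies Property A.

Common definitions and the statements (as `def ...Stmt : Prop`) of all modules.  The paper proof is
`/team-store/uql_proof.md`; section numbers below refer to it.
-/

set_option autoImplicit false

namespace Pool.Agent.H9.UQL

noncomputable section

open Classical

/-! ## Near systems (a graph metric in disguise) -/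

/-- `near j z w` means that the distance of `z` and `w` is at most `j`. -/
structure Nb (Y : Type) where
  near : ℕ → Y → Y → Prop
  refl : ∀ j z, near j z z
  symm : ∀ {j : ℕ} {z w : Y}, near j z w → near j w z
  trans : ∀ {i j : ℕ} {z w v : Y}, near i z w → near j w v → near (i + j) z v

/-- ball of radius `j`. -/
def Nb.ball {Y : Type} [Fintype Y] (N : Nb Y) (j : ℕ) (z : Y) : Finset Y :=
  Finset.univ.filter (fun w => N.near j z w)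

/-- `j`-neighbourhood of a finite set. -/
def Nb.nball {Y : Type} [Fintype Y] (N : Nb Y) (j : ℕ) (S : Finset Y) : Finset Y :=
  Finset.univ.filter (fun w => ∃ z ∈ S, N.near j z w)

/-- `Z` is connected for the relation `r`. -/
def ConnRel {Y : Type} (r : Y → Y → Prop) (Z : Finset Y) : Prop :=
  ∀ a ∈ Z, ∀ b ∈ Z, Relation.ReflTransGen (fun u v => u ∈ Z ∧ v ∈ Z ∧ r u v) a b

/-! ## Fields -/

/-- square norm of a vector valued field. -/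
def sq {Y ι : Type} [Fintype Y] [Fintype ι] (x : Y → EuclideanSpace ℝ ι) : ℝ := ∑ z, ‖x z‖ ^ 2

/-- action of a real matrix on a vector valued field. -/
def act {Y ι : Type} [Fintype Y] [Fintype ι] (T : Matrix Y Y ℝ) (x : Y → EuclideanSpace ℝ ι) :
    Y → EuclideanSpace ℝ ι := fun z => ∑ w, T z w • x w

/-- `T` is a contraction of `ℓ²(Y)`. -/
def Contr {Y : Type} [Fintype Y] (T : Matrix Y Y ℝ) : Prop :=
  ∀ x : Y → ℝ, ∑ z, (∑ w, T z w * x w) ^ 2 ≤ ∑ z, x z ^ 2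

/-! ## Labels -/

def sgn (b : Bool) : ℝ := if b then 1 else -1

/-- the `±1` vector of a Boolean label. -/
def lab {ι : Type} [Fintype ι] (ε : ι → Bool) : EuclideanSpace ℝ ι := WithLp.toLp 2 (fun i => sgn (ε i))

/-- the hat function: `0` outside `(1/2,2)`, `1` at `1`, piecewise linear. -/
def hat (a : ℝ) : ℝ := max 0 (min (2 * a - 1) (2 - a))

/-- the functionals: `phi (some K)` is the truncated one (UI), `phi none` the isometry defect. -/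
def phi {ι : Type} [Fintype ι] : Option ℕ → EuclideanSpace ℝ ι → EuclideanSpace ℝ ι → ℝ
  | none, e, v => (inner ℝ e v) ^ 2 - ‖v‖ ^ 2
  | some K, e, v => max ((inner ℝ e v) ^ 2 - (K : ℝ) * ‖v‖ ^ 2) 0

def kap (ω : ℝ) : Option ℕ → ℝ
  | none => ω
  | some K => max ω (12288 * Real.exp (-(K : ℝ) / 4))

/-- normalised counting measure. -/
def pr {Ω : Type} [Fintype Ω] (A : Ω → Prop) : ℝ :=
  ((Finset.univ.filter A).card : ℝ) / (Fintype.card Ω : ℝ)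

/-- average. -/
def ex {Ω : Type} [Fintype Ω] (f : Ω → ℝ) : ℝ := (∑ ω, f ω) / (Fintype.card Ω : ℝ)

/-- the bad event of the pair `(Z, M)` (section 3.1). -/
def Bad {Y ι : Type} [Fintype Y] [DecidableEq Y] [Fintype ι] (N : Nb Y) (T : Matrix Y Y ℝ) (s t : ℕ)
    (Lam ω : ℝ) (q : Option ℕ) (Z : Finset Y) (M : ℕ) (e : Y → EuclideanSpace ℝ ι) : Prop :=
  ∃ ξ : Y → EuclideanSpace ℝ ι, sq ξ ≤ Lam * M ∧
    ∑ z ∈ N.nball (2 * s) Z, hat ‖act (T ^ t) ξ z‖ * ‖act (T ^ t) ξ z‖ ^ 2 ≤ 2 * M ∧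
    kap ω q * M / 4 <
      ∑ z ∈ N.nball (2 * s) Z, hat ‖act (T ^ t) ξ z‖ * phi q (e z) (act (T ^ t) ξ z)

/-! ## Statements of the modules -/

/-- Module LLL (3.4): asymmetric Lovász local lemma on a product space, conditional form. -/
def LLLStmt : Prop :=
  ∀ (Y Λ I : Type) [Fintype Y] [DecidableEq Y] [Fintype Λ] [Nonempty Λ] [Fintype I] [DecidableEq I]
    (A : I → (Y → Λ) → Prop) (S : I → Finset Y) (x : I → ℝ),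
    (∀ i (σ τ : Y → Λ), (∀ y ∈ S i, σ y = τ y) → (A i σ ↔ A i τ)) →
    (∀ i, 0 ≤ x i ∧ x i < 1) →
    (∀ i, pr (A i) ≤ x i *
      ∏ j ∈ Finset.univ.filter (fun j => j ≠ i ∧ ¬ Disjoint (S i) (S j)), (1 - x j)) →
    0 < pr (fun σ : Y → Λ => ∀ i, ¬ A i σ) ∧
    ∀ (B : (Y → Λ) → ℝ) (SB : Finset Y), (∀ σ, 0 ≤ B σ) →
      (∀ σ τ : Y → Λ, (∀ y ∈ SB, σ y = τ y) → B σ = B τ) →
      ex (fun σ : Y → Λ => if (∀ i, ¬ A i σ) then B σ else 0) *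
        ∏ j ∈ Finset.univ.filter (fun j => ¬ Disjoint SB (S j)), (1 - x j)
      ≤ ex B * pr (fun σ : Y → Λ => ∀ i, ¬ A i σ)

/-- Module COUNT (3.4): number of connected sets containing a point. -/
def CountStmt : Prop :=
  ∀ (Y : Type) [Fintype Y] (r : Y → Y → Prop) (V : ℕ),
    (∀ z, r z z) → (∀ z w, r z w → r w z) →
    (∀ z, (Finset.univ.filter (fun w => r z w)).card ≤ V) →
    ∀ (z : Y) (n : ℕ),
      (Finset.univ.filter (fun Z : Finset Y => z ∈ Z ∧ Z.card = n ∧ ConnRel r Z)).card ≤ V ^ (2 * n)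

/-- Module TAIL (3.3). -/
def TailStmt : Prop :=
  ∀ (Y ι : Type) [Fintype Y] [DecidableEq Y] [Fintype ι] (u : Y → EuclideanSpace ℝ ι) (R : Finset Y)
    (M ω : ℝ) (q : Option ℕ), 0 < ω → ω ≤ 1 → 0 ≤ M →
    ∑ z ∈ R, hat ‖u z‖ * ‖u z‖ ^ 2 ≤ 3 * M →
    pr (fun ε : Y → ι → Bool =>
        kap ω q * M / 8 < ∑ z ∈ R, hat ‖u z‖ * phi q (lab (ε z)) (u z)) ≤
      Real.exp (-(ω ^ 2 / 24576) * M)

/-- Module NET (3.2). -/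
def NetStmt : Prop :=
  ∀ (Y ι : Type) [Fintype Y] [DecidableEq Y] [Fintype ι] (A : Matrix Y Y ℝ) (R : Finset Y)
    (b Lam η M : ℝ), Contr A → ∑ z ∈ R, ∑ w, A z w ^ 2 ≤ b → 0 < Lam → 0 < η → 0 < M →
    ∃ Net : Finset (Y → EuclideanSpace ℝ ι),
      (Net.card : ℝ) ≤ Real.exp
        ((2 * Lam * (Fintype.card ι : ℝ) * b / η ^ 2) * (2 + 2 * Lam / η ^ 2)) ∧
      ∀ ξ : Y → EuclideanSpace ℝ ι, sq ξ ≤ Lam * M →
        ∃ u ∈ Net, ∑ z ∈ R, ‖act A ξ z - u z‖ ^ 2 ≤ η ^ 2 * M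

/-- exponent in the entropy of the net (per point of `Z`), with `η = ω/(144 k √Lam)`. -/
def sig (k Lam ω a V : ℝ) : ℝ :=
  (41472 * k ^ 3 * Lam ^ 2 * a * V / ω ^ 2) * (2 + 41472 * k ^ 2 * Lam ^ 2 / ω ^ 2)

/-- Module PROB (3.2, 3.3), from TAIL and NET. -/
def ProbStmt : Prop :=
  ∀ (Y ι : Type) [Fintype Y] [DecidableEq Y] [Fintype ι] [Nonempty ι] (N : Nb Y) (T : Matrix Y Y ℝ)
    (s t : ℕ) (Lam ω a V : ℝ) (q : Option ℕ) (Z : Finset Y) (M : ℕ),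
    Contr T → (∀ z, ∑ w, (T ^ t) z w ^ 2 ≤ a) → (∀ z, ((N.ball (2 * s) z).card : ℝ) ≤ V) →
    1 ≤ Lam → 0 < ω → ω ≤ 1 → 1 ≤ M → (∀ K : ℕ, q = some K → K ≤ Fintype.card ι) →
    pr (fun ε : Y → ι → Bool => Bad N T s t Lam ω q Z M (fun z => lab (ε z))) ≤
      Real.exp (sig (Fintype.card ι) Lam ω a V * Z.card - (ω ^ 2 / 24576) * M)

/-- Module DET (3.1): the deterministic level-set/cluster argument. -/
def DetStmt : Prop :=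
  ∀ (Y ι : Type) [Fintype Y] [DecidableEq Y] [Fintype ι] [Nonempty ι] (N : Nb Y) (T : Matrix Y Y ℝ)
    (s t m : ℕ) (V Gam Lam Th ω a : ℝ) (q : Option ℕ) (e x : Y → EuclideanSpace ℝ ι),
    s ≤ t → (∀ z, ((N.ball (t + 2 * s) z).card : ℝ) ≤ V) → (∀ z w, T z w ≠ 0 → N.near 1 z w) →
    Contr T → (∀ z, ∑ w, (T ^ s) z w ^ 2 ≤ a) → 0 < a → 0 < ω → ω ≤ 1 → 1 ≤ Gam → 1 ≤ V →
    (∀ z, ‖e z‖ ^ 2 ≤ (Fintype.card ι : ℝ)) →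
    256 * (Fintype.card ι : ℝ) * V ^ 2 * Gam ^ 2 / ω ≤ 4 ^ m →
    8 * (Fintype.card ι : ℝ) * (2 * (m + 1) * Gam ^ 2 + 1) / ω ≤ Lam →
    Th * (4 * Lam * a) ≤ 1 → 1 ≤ Th →
    (∀ Z : Finset Y, Z.Nonempty → ConnRel (N.near (2 * t + 8 * s)) Z →
      ∀ M : ℕ, Th * Z.card ≤ M → M ≤ 4 * Fintype.card Y + 1 → ¬ Bad N T s t Lam ω q Z M e) →
    sq x ≤ Gam ^ 2 * sq (act (T ^ t) x) →
    ∑ z, phi q (e z) (act (T ^ t) x z) ≤ kap ω q * sq (act (T ^ t) x)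

/-- Module LAB (3.4, 3.5 and parameters), from DET, PROB, LLL, COUNT. -/
def LabStmt : Prop :=
  ∀ (D : ℕ) (c : ℝ), 2 ≤ D → 0 < c → c < 1 → ∃ g : ℝ, 0 < g ∧ g < 1 ∧
    ∀ (ι : Type) [Fintype ι] [Nonempty ι] (ω : ℝ), 0 < ω → ω ≤ 1 → ∃ t : ℕ,
    ∀ (Y : Type) [Fintype Y] [DecidableEq Y] (N : Nb Y) (T : Matrix Y Y ℝ),
      (∀ (j : ℕ) (z : Y), (N.ball j z).card ≤ D ^ j) → (∀ z w, T z w ≠ 0 → N.near 1 z w) →
      Contr T → (∀ j ≤ t, ∀ z, ∑ w, (T ^ j) z w ^ 2 ≤ (1 - c) ^ j) →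
      ∀ (B : (ι → Bool) → (ι → Bool) → ℝ) (bb : ℝ) (wt : Y → Y → ℝ),
        (∀ σ τ, 0 ≤ B σ τ) → (∀ z w, 0 ≤ wt z w) →
        ex (fun p : (ι → Bool) × (ι → Bool) => B p.1 p.2) ≤ bb →
        ex (fun p : ι → Bool => B p p) ≤ bb →
        ∃ ε : Y → ι → Bool,
          (∀ (q : Option ℕ) (x : Y → EuclideanSpace ℝ ι),
            (1 - g) ^ (2 * t) * sq x ≤ sq (act (T ^ t) x) →
            ∑ z, phi q (lab (ε z)) (act (T ^ t) x z) ≤ kap ω q * sq (act (T ^ t) x)) ∧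
          ∑ z, ∑ w, wt z w * B (ε z) (ε w) ≤ 2 * bb * ∑ z, ∑ w, wt z w

/-- quadratic form bounds `0 ≤ T ≤ 1`. -/
def Form01 {Y : Type} [Fintype Y] (T : Matrix Y Y ℝ) : Prop :=
  ∀ φ : Y → ℝ, 0 ≤ ∑ z, ∑ w, φ z * T z w * φ w ∧ ∑ z, ∑ w, φ z * T z w * φ w ≤ ∑ z, φ z ^ 2

/-- `‖[T,f]‖ ≤ δ`. -/
def CommLe {Y : Type} [Fintype Y] (T : Matrix Y Y ℝ) (f : Y → ℝ) (δ : ℝ) : Prop :=
  ∀ x : Y → ℝ, ∑ z, (∑ w, T z w * (f z - f w) * x w) ^ 2 ≤ δ ^ 2 * ∑ z, x z ^ 2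

/-- Module FC (4): the functional calculus `H = h(T)`. -/
def FCStmt : Prop :=
  ∀ g : ℝ, 0 < g → g < 1 → ∃ l : ℝ → ℝ, (∀ δ, 0 < δ → 0 < l δ) ∧
    ∀ (Y : Type) [Fintype Y] [DecidableEq Y] (T : Matrix Y Y ℝ), T.IsSymm → Form01 T →
      ∃ H : Matrix Y Y ℝ, H.IsSymm ∧ Contr H ∧
        (∀ b : Y → ℝ, (∀ z, ∑ w, T z w * b w = b z) → ∀ z, ∑ w, H z w * b w = b z) ∧
        (∀ (t : ℕ) (v : Y → ℝ), ∃ x : Y → ℝ, (∀ z, ∑ w, (T ^ t) z w * x w = ∑ w, H z w * v w) ∧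
          (1 - g) ^ (2 * t) * ∑ z, x z ^ 2 ≤ ∑ z, (∑ w, H z w * v w) ^ 2) ∧
        (∀ δ : ℝ, 0 < δ → ∀ f : Y → ℝ, (∀ z, |f z| ≤ 1) → CommLe T f (l δ) → CommLe H f δ)

/-- a block: symmetric `T` with `0 ≤ T ≤ 1`, range `R0`, unit fixed vector `b ≥ 0`, local gap `c`
at scale `S`. -/
def IsBlock {Y : Type} [Fintype Y] [MetricSpace Y] (R0 c S : ℝ) (T : Matrix Y Y ℝ) (b : Y → ℝ) :
    Prop :=
  T.IsSymm ∧ (∀ z w, T z w ≠ 0 → dist z w ≤ R0) ∧ Form01 T ∧ (∀ z, 0 ≤ b z) ∧ ∑ z, b z ^ 2 = 1 ∧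
    (∀ z, ∑ w, T z w * b w = b z) ∧
    ∀ φ : Y → ℝ, (∀ z w, φ z ≠ 0 → φ w ≠ 0 → dist z w ≤ S) →
      ∑ z, ∑ w, φ z * T z w * φ w ≤ (1 - c) * ∑ z, φ z ^ 2

/-- Module BOUT (2, 4, 5, 6), from LAB and FC: the operator on one block. -/
def BOutStmt : Prop :=
  ∀ (D : ℕ) (c R0 : ℝ), 2 ≤ D → 0 < c → c < 1 → 0 < R0 →
    ∃ (ωf lf : ℝ → ℝ), (∀ δ, 0 < δ → 0 < ωf δ ∧ 0 < lf δ) ∧
    ∀ (k : ℕ) (ω : ℝ), 1 ≤ k → 0 < ω → ω ≤ 1 / 1000 → ∃ S : ℝ,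
    ∀ (Y : Type) [Fintype Y] [MetricSpace Y] (T : Matrix Y Y ℝ) (b : Y → ℝ),
      (∀ z : Y, (Finset.univ.filter (fun w => dist z w ≤ R0)).card ≤ D) → IsBlock R0 c S T b →
      ∀ (R' v' : ℝ), 0 ≤ v' →
        (∀ z : Y, ((Finset.univ.filter (fun w => dist z w ≤ R')).card : ℝ) ≤ v') →
        ∃ (K : Y → Y → ℝ) (u u' : Fin k → Y → ℝ),
          (∀ φ ψ : Y → ℝ, |∑ z, ∑ w, φ z * K z w * ψ w| ≤
            2 * Real.sqrt (∑ z, φ z ^ 2) * Real.sqrt (∑ z, ψ z ^ 2)) ∧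
          (∀ δ : ℝ, 0 < δ → ω ≤ ωf δ → ∀ f : Y → ℝ, (∀ z, |f z| ≤ 1) →
            (∀ z w, |f z - f w| ≤ lf δ * dist z w) → ∀ φ ψ : Y → ℝ,
            |∑ z, ∑ w, φ z * (K z w * (f z - f w)) * ψ w| ≤
              δ * Real.sqrt (∑ z, φ z ^ 2) * Real.sqrt (∑ z, ψ z ^ 2)) ∧
          (∀ i, ∑ z, u i z ^ 2 ≤ 1) ∧ (∀ i, ∑ z, u' i z ^ 2 ≤ 1) ∧
          (k : ℝ) / 2 ≤ ∑ i, ∑ z, ∑ w, u i z * K z w * u' i w ∧
          ∀ (K'' : Y → Y → ℝ) (a : ℝ), (∀ z w, |K'' z w| ≤ a) → (∀ z w, R' < dist z w → K'' z w = 0) →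
            |∑ i, ∑ z, ∑ w, u i z * K'' z w * u' i w| ≤ a * v' * Real.sqrt (2 * k)

/-! ### the coarse side -/

/-- bounded geometry, as in the frozen statement. -/
def BG (X : Type) [MetricSpace X] : Prop :=
  ∀ r : ℝ, ∃ N : ℕ, ∀ x : X, (Metric.closedBall x r).Finite ∧ (Metric.closedBall x r).ncard ≤ N

/-- Yu's condition for the given constants `R, ε`, as in the frozen statement. -/
def YuA (X : Type) [MetricSpace X] (R ε : ℝ) : Prop :=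
  ∃ S : ℝ, ∃ A : X → Finset (X × ℕ),
    (∀ x, (x, 1) ∈ A x) ∧ (∀ x, ∀ p ∈ A x, dist p.1 x ≤ S) ∧
    ∀ x y, dist x y < R →
      (((A x \ A y) ∪ (A y \ A x)).card : ℝ) < ε * ((A x ∩ A y).card : ℝ)

/-- probability vectors on `Z` with small variation (section 1). -/
def P1 {X : Type} [MetricSpace X] (R0 S θ : ℝ) (Z : Finset X) : Prop :=
  ∃ ξ : X → (X →₀ ℝ), (∀ x z, 0 ≤ ξ x z) ∧ (∀ x ∈ Z, ∀ z, ξ x z ≠ 0 → dist z x ≤ S) ∧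
    (∀ x ∈ Z, (ξ x).sum (fun _ a => a) = 1) ∧
    ∀ x ∈ Z, ∀ y ∈ Z, dist x y ≤ R0 → (ξ x - ξ y).sum (fun _ a => |a|) ≤ θ

/-- Module BL1 (1a, 1b). -/
def BL1Stmt : Prop :=
  ∀ (X : Type) [MetricSpace X], BG X → ∀ (R0 ε0 : ℝ), 0 < R0 → 0 < ε0 → ∃ θ : ℝ, 0 < θ ∧ θ ≤ 1 ∧
    ∀ (S : ℝ) (F : Finset X), (∀ Z : Finset X, Disjoint Z F → P1 R0 S θ Z) → YuA X R0 ε0

/-- Module BL2 (1c, 1d). -/
def BL2Stmt : Prop :=
  ∀ (X : Type) [MetricSpace X] (R0 S θ : ℝ), 0 ≤ S → 0 < θ → ∀ Z : Finset X, ¬ P1 R0 S θ Z →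
    ∃ Y : Finset X, Y ⊆ Z ∧ Y.Nonempty ∧ ∃ (w : X → X → ℝ) (m : X → ℝ),
      (∀ x y, 0 ≤ w x y) ∧ (∀ x y, w x y = w y x) ∧ (∀ x y, w x y ≠ 0 → dist x y ≤ R0) ∧
      (∀ x ∈ Y, ∑ y ∈ Y, w x y ≤ m x) ∧
      ∀ E : Finset X, E ⊆ Y → E.Nonempty → (∀ x ∈ E, ∀ y ∈ E, dist x y ≤ S) →
        (θ / 4) * ∑ x ∈ E, m x < ∑ x ∈ E, ∑ y ∈ Y \ E, w x y

/-- Module BL3 (1e). -/
def BL3Stmt : Prop :=
  ∀ (Y : Type) [Fintype Y] [Nonempty Y] [MetricSpace Y] (R0 S ε : ℝ) (w : Y → Y → ℝ) (m : Y → ℝ),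
    0 ≤ R0 → 0 ≤ S → 0 < ε → ε ≤ 1 →
    (∀ x y, 0 ≤ w x y) → (∀ x y, w x y = w y x) → (∀ x y, w x y ≠ 0 → dist x y ≤ R0) →
    (∀ x, ∑ y, w x y ≤ m x) →
    (∀ E : Finset Y, E.Nonempty → (∀ x ∈ E, ∀ y ∈ E, dist x y ≤ S) →
        ε * ∑ x ∈ E, m x < ∑ x ∈ E, ∑ y ∈ Finset.univ \ E, w x y) →
    ∃ (T : Matrix Y Y ℝ) (b : Y → ℝ), IsBlock R0 (ε ^ 2 / 4) S T b

/-- Module BLOCK, from BL1, BL2, BL3. -/
def BlockStmt : Prop :=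
  ∀ (X : Type) [MetricSpace X], BG X → (∃ R ε : ℝ, 0 < R ∧ 0 < ε ∧ ¬ YuA X R ε) →
    ∃ R0 c : ℝ, 0 < R0 ∧ 0 < c ∧ c < 1 ∧ ∀ (S : ℝ) (F : Finset X),
      ∃ (Y : Finset X) (T : Matrix Y Y ℝ) (b : Y → ℝ), Disjoint Y F ∧ IsBlock R0 c S T b

/-- `ℓ²(X)`. -/
abbrev l2 (X : Type) := lp (fun _ : X => ℂ) 2

/-- quasi-local operators, as in the frozen statement. -/
def QLoc {X : Type} [MetricSpace X] (T : l2 X →L[ℂ] l2 X) : Prop :=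
  ∀ ε : ℝ, 0 < ε → ∃ R : ℝ, 0 < R ∧ ∀ C D : Set X,
    (∀ c ∈ C, ∀ d ∈ D, R < dist c d) →
    ∀ v w : l2 X, (∀ x, x ∉ D → v x = 0) → (∀ x, x ∉ C → w x = 0) →
      ‖inner ℂ w (T v)‖ ≤ ε * ‖w‖ * ‖v‖

/-- quasi-local normalisers, as in the frozen statement. -/
def normSet (X : Type) [MetricSpace X] : Set (l2 X →L[ℂ] l2 X) :=
  {n : l2 X →L[ℂ] l2 X | QLoc n ∧
    ∀ a : l2 X →L[ℂ] l2 X,
      (∀ x y : X, x ≠ y → (a (lp.single 2 x (1 : ℂ) : l2 X)) y = 0) →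
      (∀ x y : X, x ≠ y → ((n * a * star n) (lp.single 2 x (1 : ℂ) : l2 X)) y = 0) ∧
      (∀ x y : X, x ≠ y → ((star n * a * n) (lp.single 2 x (1 : ℂ) : l2 X)) y = 0)}

/-- Module NORM (0): everything in the C*-algebra generated by quasi-local normalisers is a norm
limit of finite propagation operators. -/
def NormStmt : Prop :=
  ∀ (X : Type) [MetricSpace X] (T : l2 X →L[ℂ] l2 X),
    T ∈ closure ((StarAlgebra.adjoin ℂ (normSet X)) : Set (l2 X →L[ℂ] l2 X)) →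
    ∀ δ : ℝ, 0 < δ → ∃ (R : ℝ) (T'' : l2 X →L[ℂ] l2 X),
      (∀ x y : X, R < dist x y → (T'' (lp.single 2 y (1 : ℂ) : l2 X)) x = 0) ∧ ‖T - T''‖ ≤ δ

/-- Module ASM (7): final assembly. -/
def AsmStmt : Prop :=
  BlockStmt → BOutStmt → NormStmt →
    ∀ (X : Type) [MetricSpace X], BG X →
      (∀ T : l2 X →L[ℂ] l2 X, QLoc T →
        T ∈ closure ((StarAlgebra.adjoin ℂ (normSet X)) : Set (l2 X →L[ℂ] l2 X))) →
      ∀ R : ℝ, 0 < R → ∀ ε : ℝ, 0 < ε → YuA X R ε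

end

end Pool.Agent.H9.UQL
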