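import Pool.Agent.H9.UQL.Basic

/-! Module DET, part 1: levels, dominated points, overlap. -/

set_option autoImplicit false

namespace Pool.Agent.H9.UQL

open Finset

noncomputable section

open Classical

theorem hat_pair {b : ℝ} (h1 : 1 ≤ b) (h2 : b < 2) : hat b + hat (b / 2) = 1 := by
  unfold hat
  rw [min_eq_right (by linarith), min_eq_left (by linarith), max_eq_right (by linarith),
    max_eq_right (by linarith)]
  ring

/-- finitely many dyadic levels suffice for a finite family of values. -/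
theorem exists_levels {Y : Type} [Fintype Y] (f : Y → ℝ) (hf : ∀ z, 0 ≤ f z) :
    ∃ I : Finset ℤ, ∀ z, f z ≠ 0 → ∑ i ∈ I, hat ((2 : ℝ) ^ i * f z) = 1 := by
  have h : ∀ z, ∃ n : ℤ, f z ≠ 0 → (2 : ℝ) ^ n ≤ f z ∧ f z < (2 : ℝ) ^ (n + 1) := by
    intro z
    by_cases hz : f z = 0
    · exact ⟨0, fun h => absurd hz h⟩
    · obtain ⟨n, hn⟩ := exists_mem_Ico_zpow (lt_of_le_of_ne (hf z) (Ne.symm hz))
        (by norm_num : (1 : ℝ) < 2)
      exact ⟨n, fun _ => ⟨hn.1, hn.2⟩⟩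
  choose n hn using h
  refine ⟨univ.biUnion fun z => {-n z, -n z - 1}, fun z hz => ?_⟩
  obtain ⟨h1, h2⟩ := hn z hz
  have hpos : 0 < f z := lt_of_le_of_ne (hf z) (Ne.symm hz)
  have hsub : ({-n z, -n z - 1} : Finset ℤ) ⊆ univ.biUnion fun z => {-n z, -n z - 1} :=
    Finset.subset_biUnion_of_mem (fun z => ({-n z, -n z - 1} : Finset ℤ)) (mem_univ z)
  rw [← Finset.sum_subset hsub]
  · rw [Finset.sum_pair (by omega)]
    have hb1 : 1 ≤ (2 : ℝ) ^ (-n z) * f z := by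
      have := mul_le_mul_of_nonneg_left h1 (zpow_nonneg (by norm_num : (0 : ℝ) ≤ 2) (-n z))
      rw [← zpow_add₀ (by norm_num : (2 : ℝ) ≠ 0)] at this
      simpa using this
    have hb2 : (2 : ℝ) ^ (-n z) * f z < 2 := by
      have := mul_lt_mul_of_pos_left h2 (zpow_pos (by norm_num : (0 : ℝ) < 2) (-n z))
      rw [← zpow_add₀ (by norm_num : (2 : ℝ) ≠ 0)] at this
      have h3 : -n z + (n z + 1) = 1 := by ring
      rw [h3, zpow_one] at this
      exact this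
    have h3 : (2 : ℝ) ^ (-n z - 1) * f z = ((2 : ℝ) ^ (-n z) * f z) / 2 := by
      rw [zpow_sub_one₀ (by norm_num : (2 : ℝ) ≠ 0)]
      ring
    rw [h3]
    exact hat_pair hb1 hb2
  · intro i _ hi
    simp only [mem_insert, mem_singleton, not_or] at hi
    rw [hat_eq_zero_iff]
    rcases lt_or_ge i (-n z - 1) with h | h
    · left
      have h4 : i + n z + 1 ≤ -1 := by omega
      have h5 : (2 : ℝ) ^ i * f z ≤ (2 : ℝ) ^ i * (2 : ℝ) ^ (n z + 1) :=
        mul_le_mul_of_nonneg_left h2.le (zpow_nonneg (by norm_num) _)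
      rw [← zpow_add₀ (by norm_num : (2 : ℝ) ≠ 0), ← add_assoc] at h5
      refine h5.trans ?_
      calc (2 : ℝ) ^ (i + n z + 1) ≤ (2 : ℝ) ^ (-1 : ℤ) :=
            zpow_le_zpow_right₀ (by norm_num) h4
        _ = 1 / 2 := by norm_num
    · right
      have h4 : 1 ≤ i + n z := by omega
      have h5 : (2 : ℝ) ^ i * (2 : ℝ) ^ (n z) ≤ (2 : ℝ) ^ i * f z :=
        mul_le_mul_of_nonneg_left h1 (zpow_nonneg (by norm_num) _)
      rw [← zpow_add₀ (by norm_num : (2 : ℝ) ≠ 0)] at h5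
      refine le_trans ?_ h5
      calc (2 : ℝ) = (2 : ℝ) ^ (1 : ℤ) := by norm_num
        _ ≤ (2 : ℝ) ^ (i + n z) := zpow_le_zpow_right₀ (by norm_num) h4

section

variable {Y : Type} [Fintype Y] (N : Nb Y)

theorem sum_ball_le {r : ℕ} {V : ℝ} (hV : ∀ z, ((N.ball r z).card : ℝ) ≤ V) {G : Y → ℝ}
    (hG : ∀ w, 0 ≤ G w) : ∑ z, ∑ w ∈ N.ball r z, G w ≤ V * ∑ w, G w := by
  have h1 : ∑ z, ∑ w ∈ N.ball r z, G w = ∑ w, ∑ z ∈ N.ball r w, G w := by
    refine Finset.sum_comm' fun z w => ?_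
    simp only [mem_univ, true_and, and_true, N.mem_ball]
    exact ⟨fun h => N.symm h, fun h => N.symm h⟩
  rw [h1, Finset.mul_sum]
  refine Finset.sum_le_sum fun w _ => ?_
  rw [Finset.sum_const, nsmul_eq_mul]
  exact mul_le_mul_of_nonneg_right (hV w) (hG w)

/-- mass of the dominated points. -/
theorem dom_mass {r : ℕ} {V Q : ℝ} (hV : ∀ z, ((N.ball r z).card : ℝ) ≤ V)
    {F G : Y → ℝ} (hG : ∀ w, 0 ≤ G w) :
    Q * ∑ z ∈ univ.filter (fun z => Q * F z < ∑ w ∈ N.ball r z, G w), F z ≤ V * ∑ w, G w := by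
  refine le_trans ?_ (sum_ball_le N hV hG)
  rw [Finset.mul_sum]
  calc ∑ z ∈ univ.filter (fun z => Q * F z < ∑ w ∈ N.ball r z, G w), Q * F z
      ≤ ∑ z ∈ univ.filter (fun z => Q * F z < ∑ w ∈ N.ball r z, G w), ∑ w ∈ N.ball r z, G w := by
        refine Finset.sum_le_sum fun z hz => ?_
        exact (mem_filter.1 hz).2.le
    _ ≤ _ := Finset.sum_le_sum_of_subset_of_nonneg (subset_univ _)
        fun z _ _ => Finset.sum_nonneg fun w _ => hG w

end

/-- the counting estimate behind the overlap bound. -/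
theorem level_count {J : Finset ℤ} {G Q W V : ℝ} {m : ℕ} (hG : 0 ≤ G) (hQ : 0 < Q) (hW : 0 ≤ W)
    (hV : 1 ≤ V) (hm : 16 * Q * V ≤ 4 ^ m)
    (h1 : ∀ i ∈ J, (4 : ℝ) ^ i * G ≤ 4 * Q) (h2 : ∀ i ∈ J, 1 ≤ 4 * W * (4 : ℝ) ^ i) :
    G * J.card ≤ (m + 1) * G + W / V := by
  have hV0 : 0 < V := by linarith
  rcases J.eq_empty_or_nonempty with rfl | hJ
  · simp only [card_empty, Nat.cast_zero, mul_zero]
    positivity
  set a := J.min' hJ with ha
  set b := J.max' hJ with hb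
  have hab : a ≤ b := J.min'_le_max' hJ
  have hsub : J ⊆ Finset.Icc a b := fun i hi => by
    rw [Finset.mem_Icc]
    exact ⟨J.min'_le i hi, J.le_max' i hi⟩
  have hcard : (J.card : ℤ) ≤ b - a + 1 := by
    have := Finset.card_le_card hsub
    rw [Int.card_Icc] at this
    omega
  obtain ⟨d, hd⟩ : ∃ d : ℕ, b - a = d := ⟨(b - a).toNat, by omega⟩
  have hn : J.card ≤ d + 1 := by omega
  have hmain : G * 4 ^ d ≤ 16 * Q * W := by
    have e1 := h1 b (J.max'_mem hJ)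
    have e2 := h2 a (J.min'_mem hJ)
    have e3 : (4 : ℝ) ^ b = 4 ^ a * 4 ^ d := by
      have : b = a + d := by omega
      rw [this, zpow_add₀ (by norm_num : (4 : ℝ) ≠ 0), zpow_natCast]
    have hpa : (0 : ℝ) < 4 ^ a := zpow_pos (by norm_num) _
    rw [e3] at e1
    -- 4^a * (G 4^d) ≤ 4 Q ≤ 4 Q * 4 W 4^a
    have e4 : (4 : ℝ) ^ a * (G * 4 ^ d) ≤ 4 ^ a * (16 * Q * W) := by
      calc (4 : ℝ) ^ a * (G * 4 ^ d) = 4 ^ a * 4 ^ d * G := by ring
        _ ≤ 4 * Q := e1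
        _ ≤ 4 * Q * (4 * W * 4 ^ a) := le_mul_of_one_le_right (by positivity) e2
        _ = 4 ^ a * (16 * Q * W) := by ring
    exact le_of_mul_le_mul_left e4 hpa
  rcases le_or_gt d m with h | h
  · have : (J.card : ℝ) ≤ m + 1 := by
      exact_mod_cast hn.trans (by omega)
    have h3 : G * J.card ≤ (m + 1) * G := by
      rw [mul_comm]
      exact mul_le_mul_of_nonneg_right this hG
    have h4 : 0 ≤ W / V := by positivity
    linarith
  · obtain ⟨j, rfl⟩ : ∃ j, d = m + j := ⟨d - m, by omega⟩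
    have h4m : (0 : ℝ) < 4 ^ m := by positivity
    have e5 : 4 ^ m * (G * 4 ^ j * V) ≤ 4 ^ m * W := by
      calc (4 : ℝ) ^ m * (G * 4 ^ j * V) = G * 4 ^ (m + j) * V := by rw [pow_add]; ring
        _ ≤ 16 * Q * W * V := mul_le_mul_of_nonneg_right hmain hV0.le
        _ = 16 * Q * V * W := by ring
        _ ≤ 4 ^ m * W := mul_le_mul_of_nonneg_right hm hW
    have e6 : G * 4 ^ j * V ≤ W := le_of_mul_le_mul_left e5 h4m
    have e7 : G * 4 ^ j ≤ W / V := by rwa [le_div_iff₀ hV0]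
    have e8 : (j : ℝ) ≤ 4 ^ j := by
      have : j < 4 ^ j := Nat.lt_pow_self (by norm_num)
      exact_mod_cast this.le
    have e9 : G * j ≤ W / V := (mul_le_mul_of_nonneg_left e8 hG).trans e7
    have e10 : (J.card : ℝ) ≤ m + 1 + j := by
      have : J.card ≤ m + j + 1 := hn
      have h5 : (J.card : ℝ) ≤ ((m + j + 1 : ℕ) : ℝ) := by exact_mod_cast this
      push_cast at h5
      linarith
    have e11 := mul_le_mul_of_nonneg_left e10 hG
    nlinarith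

section

variable {Y : Type} [Fintype Y] (N : Nb Y)

/-- the `i`-th level set: non dominated points at level `i`. -/
def Lev (r : ℕ) (Q : ℝ) (G f : Y → ℝ) (i : ℤ) : Finset Y :=
  univ.filter (fun z => ¬ (Q * f z ^ 2 < ∑ w ∈ N.ball r z, G w) ∧ 0 < hat ((2 : ℝ) ^ i * f z))

theorem mem_Lev {r : ℕ} {Q : ℝ} {G f : Y → ℝ} {i : ℤ} {z : Y} :
    z ∈ Lev N r Q G f i ↔
      (∑ w ∈ N.ball r z, G w ≤ Q * f z ^ 2) ∧ 0 < hat ((2 : ℝ) ^ i * f z) := by
  simp [Lev]

/-- the overlap bound. -/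
theorem overlap {r m : ℕ} {V Q : ℝ} (hV : ∀ z, ((N.ball r z).card : ℝ) ≤ V) (hV1 : 1 ≤ V)
    (hQ : 0 < Q) (hm : 16 * Q * V ≤ 4 ^ m) {G f : Y → ℝ} (hG : ∀ w, 0 ≤ G w) (hf : ∀ w, 0 ≤ f w)
    (I : Finset ℤ) :
    ∑ i ∈ I, ∑ w ∈ N.nball r (Lev N r Q G f i), G w ≤ (m + 1) * ∑ w, G w + ∑ z, f z ^ 2 := by
  have hV0 : 0 < V := by linarith
  set W : Y → ℝ := fun w => ∑ z ∈ N.ball r w, f z ^ 2 with hW
  have hW0 : ∀ w, 0 ≤ W w := fun w => Finset.sum_nonneg fun _ _ => sq_nonneg _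
  have h1 : ∑ i ∈ I, ∑ w ∈ N.nball r (Lev N r Q G f i), G w =
      ∑ w, G w * ((I.filter fun i => w ∈ N.nball r (Lev N r Q G f i)).card : ℝ) := by
    have : ∀ i ∈ I, ∑ w ∈ N.nball r (Lev N r Q G f i), G w =
        ∑ w, if w ∈ N.nball r (Lev N r Q G f i) then G w else 0 := by
      intro i _
      rw [← Finset.sum_filter]
      congr 1
      ext w
      simp
    rw [Finset.sum_congr rfl this, Finset.sum_comm]
    refine Finset.sum_congr rfl fun w _ => ?_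
    rw [← Finset.sum_filter, Finset.sum_const, nsmul_eq_mul, mul_comm]
  rw [h1]
  have h2 : ∀ w, G w * ((I.filter fun i => w ∈ N.nball r (Lev N r Q G f i)).card : ℝ) ≤
      (m + 1) * G w + W w / V := by
    intro w
    refine level_count (hG w) hQ (hW0 w) hV1 hm ?_ ?_
    · intro i hi
      obtain ⟨z, hz, hzw⟩ := N.mem_nball.1 (mem_filter.1 hi).2
      obtain ⟨hz1, hz2⟩ := (mem_Lev N).1 hz
      obtain ⟨-, h4⟩ := hat_pos_iff.1 hz2
      have h5 : G w ≤ Q * f z ^ 2 := by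
        refine le_trans ?_ hz1
        exact Finset.single_le_sum (f := G) (fun w _ => hG w) (N.mem_ball.2 hzw)
      have h6 : ((2 : ℝ) ^ i * f z) ^ 2 ≤ 4 := by
        have : 0 ≤ (2 : ℝ) ^ i * f z := mul_nonneg (zpow_nonneg (by norm_num) _) (hf z)
        nlinarith
      have h7 : (4 : ℝ) ^ i = ((2 : ℝ) ^ i) ^ 2 := by
        rw [← zpow_natCast, ← zpow_mul, mul_comm, zpow_mul]
        norm_num
      have h8 : (0 : ℝ) ≤ 4 ^ i := zpow_nonneg (by norm_num) _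
      calc (4 : ℝ) ^ i * G w ≤ 4 ^ i * (Q * f z ^ 2) := mul_le_mul_of_nonneg_left h5 h8
        _ = Q * ((2 : ℝ) ^ i * f z) ^ 2 := by rw [h7]; ring
        _ ≤ Q * 4 := mul_le_mul_of_nonneg_left h6 hQ.le
        _ = 4 * Q := by ring
    · intro i hi
      obtain ⟨z, hz, hzw⟩ := N.mem_nball.1 (mem_filter.1 hi).2
      obtain ⟨hz1, hz2⟩ := (mem_Lev N).1 hz
      obtain ⟨h3, -⟩ := hat_pos_iff.1 hz2
      have h5 : f z ^ 2 ≤ W w :=
        Finset.single_le_sum (f := fun z => f z ^ 2) (fun w _ => sq_nonneg _)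
          (N.mem_ball.2 (N.symm hzw))
      have h6 : 1 / 4 ≤ ((2 : ℝ) ^ i * f z) ^ 2 := by nlinarith
      have h7 : (4 : ℝ) ^ i = ((2 : ℝ) ^ i) ^ 2 := by
        rw [← zpow_natCast, ← zpow_mul, mul_comm, zpow_mul]
        norm_num
      have h8 : (0 : ℝ) ≤ 4 ^ i := zpow_nonneg (by norm_num) _
      have h9 : 1 / 4 ≤ W w * 4 ^ i := by
        calc (1 : ℝ) / 4 ≤ ((2 : ℝ) ^ i * f z) ^ 2 := h6
          _ = f z ^ 2 * 4 ^ i := by rw [h7]; ring
          _ ≤ W w * 4 ^ i := mul_le_mul_of_nonneg_right h5 h8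
      linarith
  refine (Finset.sum_le_sum fun w _ => h2 w).trans ?_
  rw [Finset.sum_add_distrib, ← Finset.mul_sum, ← Finset.sum_div]
  have h3 : ∑ w, W w ≤ V * ∑ z, f z ^ 2 := sum_ball_le N hV fun _ => sq_nonneg _
  have h4 : (∑ w, W w) / V ≤ ∑ z, f z ^ 2 := by
    rw [div_le_iff₀ hV0]
    linarith
  linarith

end

end

end Pool.Agent.H9.UQL
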